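import Pool.Agent.Helper20.MB.DefsN

/-!
# Project MB, piece 4c: the vertical part of the difference tensor
-/

open Filter Metric Module Set
open scoped Topology ContDiff RealInnerProductSpace Manifold

set_option maxSynthPendingDepth 3

namespace Pool.Agent.Helper32.MB
open Pool.Agent.Helper20.PC Pool.Agent.Helper20.HP Pool.Agent.Helper20.M8 Pool.Agent.Helper20.MB

section
variable {V Y : Type*} [NormedAddCommGroup V] [NormedSpace ℝ V] [FiniteDimensional ℝ V]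
  [NormedAddCommGroup Y] [NormedSpace ℝ Y] [FiniteDimensional ℝ Y]
  {h : V → V →L[ℝ] V →L[ℝ] ℝ} {m : V → Y →L[ℝ] Y →L[ℝ] ℝ}
  {S : V → Y →L[ℝ] Y →L[ℝ] Y →L[ℝ] Y →L[ℝ] ℝ} {A : V → V →L[ℝ] Y →L[ℝ] Y} {x : V} {y : Y}

lemma nrm_smul' {E : Type*} [NormedAddCommGroup E] [NormedSpace ℝ E] (f : E →L[ℝ] E →L[ℝ] ℝ)
    (c : ℝ) (a : E) : nrm f (c • a) = |c| * nrm f a := by
  have h1 : f (c • a) (c • a) = c ^ 2 * f a a := by
    have e : f (c • a) = c • f a := map_smul f c a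
    rw [e, ContinuousLinearMap.smul_apply, map_smul, smul_eq_mul, smul_eq_mul]
    ring
  rw [nrm, h1, Real.sqrt_mul (sq_nonneg c), Real.sqrt_sq_eq_abs, nrm]

lemma MM_low {b : ℝ} (hb' : ∀ p q r s, |S x p q r s| ≤
      b * nrm (m x) p * nrm (m x) q * nrm (m x) r * nrm (m x) s)
    (hm : ∀ a, 0 ≤ m x a a) {δ : ℝ} (δb : δ ^ 2 * b ≤ 1 / 100)
    (yy : m x y y = 1) (a : Y) : (99 / 100) * m x a a ≤ MM m S δ x y a a := by
  have hy1 : nrm (m x) y = 1 := by rw [nrm, yy, Real.sqrt_one]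
  have h1 := hb' y a y a
  rw [hy1] at h1
  have h2 : nrm (m x) a * nrm (m x) a = m x a a := Real.mul_self_sqrt (hm a)
  have h3 : |S x y a y a| ≤ b * m x a a := by
    calc |S x y a y a| ≤ b * 1 * nrm (m x) a * 1 * nrm (m x) a := h1
      _ = b * (nrm (m x) a * nrm (m x) a) := by ring
      _ = b * m x a a := by rw [h2]
  have h4 : S x y a y a ≤ b * m x a a := (le_abs_self _).trans h3
  have h5 : δ ^ 2 * S x y a y a ≤ δ ^ 2 * (b * m x a a) :=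
    mul_le_mul_of_nonneg_left h4 (sq_nonneg δ)
  have h6 : δ ^ 2 * b * m x a a ≤ 1 / 100 * m x a a := mul_le_mul_of_nonneg_right δb (hm a)
  unfold MM
  nlinarith

lemma diag_bound {b : ℝ} (hb : BdN h m S A x b) (hm : ∀ a, 0 ≤ m x a a) {δ : ℝ} (δ0 : 0 < δ)
    (δb : δ ^ 2 * b ≤ 1 / 100) (yy : m x y y = 1) {X : V} {U : Y} (XX : h x X X = 1)
    (UU : MM m S δ x y U U = 1) {c s : ℝ} {t : Y}
    (ht : IsVF m S δ x y (c • X) ((s / δ) • U) (c • X) ((s / δ) • U) t) :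
    (∀ ξ, m x y ξ = 0 → |MM m S δ x y t ξ| ≤
      (102 / 100) * (b * (δ * (|c| * |s|) + 2 * |s| ^ 2)) * nrm (m x) ξ) ∧
    nrm (m x) t ≤ (104 / 100) * (b * (δ * (|c| * |s|) + 2 * |s| ^ 2)) := by
  have hy1 : nrm (m x) y = 1 := by rw [nrm, yy, Real.sqrt_one]
  have hX1 : nrm (h x) X = 1 := by rw [nrm, XX, Real.sqrt_one]
  have hb1 := hb.one
  have hb0 : 0 ≤ b := by linarith
  have hUU : (99 / 100) * m x U U ≤ 1 := by
    rw [← UU]
    exact MM_low hb.hS0 hm δb yy U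
  have hu0 : 0 ≤ nrm (m x) U := Real.sqrt_nonneg _
  have hu2 : nrm (m x) U * nrm (m x) U = m x U U := Real.mul_self_sqrt (hm U)
  have hu3 : nrm (m x) U ^ 2 ≤ 102 / 100 := by
    rw [pow_two, hu2]
    linarith
  have hu1 : nrm (m x) U ≤ 102 / 100 := by
    by_contra hcon
    push Not at hcon
    nlinarith
  have hδ2 : 0 ≤ |s| / δ := by positivity
  have key : ∀ ξ, m x y ξ = 0 → |MM m S δ x y t ξ| ≤
      (102 / 100) * (b * (δ * (|c| * |s|) + 2 * |s| ^ 2)) * nrm (m x) ξ := by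
    intro ξ hξ
    have hr0 : 0 ≤ nrm (m x) ξ := Real.sqrt_nonneg _
    rw [ht.2 ξ hξ]
    have hp : nrm (m x) ((s / δ) • U) = |s| / δ * nrm (m x) U := by
      rw [nrm_smul', abs_div, abs_of_pos δ0]
    have hcX : nrm (h x) (c • X) = |c| := by rw [nrm_smul', hX1, mul_one]
    have hD := hb.hS1 (c • X) y ((s / δ) • U) y ξ
    have hP := hb.hS0 y ((s / δ) • U) ((s / δ) • U) ξ
    rw [hp, hcX, hy1] at hD
    rw [hp, hy1] at hP
    have e1 : |-(1 / 2) * δ ^ 2 * (dS4 S x (c • X) y ((s / δ) • U) y ξ +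
        dS4 S x (c • X) y ((s / δ) • U) y ξ + 2 * S x y ((s / δ) • U) ((s / δ) • U) ξ +
        2 * S x y ((s / δ) • U) ((s / δ) • U) ξ)| ≤ δ ^ 2 *
        (|dS4 S x (c • X) y ((s / δ) • U) y ξ| + 2 * |S x y ((s / δ) • U) ((s / δ) • U) ξ|) := by
      have e0 : -(1 / 2) * δ ^ 2 * (dS4 S x (c • X) y ((s / δ) • U) y ξ +
        dS4 S x (c • X) y ((s / δ) • U) y ξ + 2 * S x y ((s / δ) • U) ((s / δ) • U) ξ +
        2 * S x y ((s / δ) • U) ((s / δ) • U) ξ) = - (δ ^ 2 *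
        (dS4 S x (c • X) y ((s / δ) • U) y ξ + 2 * S x y ((s / δ) • U) ((s / δ) • U) ξ)) := by
        ring
      rw [e0, abs_neg, abs_mul, abs_of_nonneg (sq_nonneg δ)]
      apply mul_le_mul_of_nonneg_left _ (sq_nonneg δ)
      refine (abs_add_le _ _).trans ?_
      rw [abs_mul, abs_of_pos (by norm_num : (0 : ℝ) < 2)]
    refine e1.trans ?_
    have e2 : δ ^ 2 * (|dS4 S x (c • X) y ((s / δ) • U) y ξ| +
        2 * |S x y ((s / δ) • U) ((s / δ) • U) ξ|) ≤ δ ^ 2 *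
        (b * |c| * 1 * (|s| / δ * nrm (m x) U) * 1 * nrm (m x) ξ +
          2 * (b * 1 * (|s| / δ * nrm (m x) U) * (|s| / δ * nrm (m x) U) * nrm (m x) ξ)) := by
      apply mul_le_mul_of_nonneg_left _ (sq_nonneg δ)
      linarith
    refine e2.trans ?_
    have e3 : δ ^ 2 *
        (b * |c| * 1 * (|s| / δ * nrm (m x) U) * 1 * nrm (m x) ξ +
          2 * (b * 1 * (|s| / δ * nrm (m x) U) * (|s| / δ * nrm (m x) U) * nrm (m x) ξ)) =
        b * nrm (m x) ξ * (δ * (|c| * |s|) * nrm (m x) U + 2 * |s| ^ 2 * nrm (m x) U ^ 2) := by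
      field_simp
    rw [e3]
    have e4 : δ * (|c| * |s|) * nrm (m x) U + 2 * |s| ^ 2 * nrm (m x) U ^ 2 ≤
        δ * (|c| * |s|) * (102 / 100) + 2 * |s| ^ 2 * (102 / 100) := by
      have f1 : 0 ≤ δ * (|c| * |s|) := by positivity
      have f2 : 0 ≤ 2 * |s| ^ 2 := by positivity
      exact add_le_add (mul_le_mul_of_nonneg_left hu1 f1) (mul_le_mul_of_nonneg_left hu3 f2)
    calc b * nrm (m x) ξ * (δ * (|c| * |s|) * nrm (m x) U + 2 * |s| ^ 2 * nrm (m x) U ^ 2)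
        ≤ b * nrm (m x) ξ * (δ * (|c| * |s|) * (102 / 100) + 2 * |s| ^ 2 * (102 / 100)) :=
          mul_le_mul_of_nonneg_left e4 (mul_nonneg hb0 hr0)
      _ = (102 / 100) * (b * (δ * (|c| * |s|) + 2 * |s| ^ 2)) * nrm (m x) ξ := by ring
  refine ⟨key, ?_⟩
  have hQ : 0 ≤ b * (δ * (|c| * |s|) + 2 * |s| ^ 2) := by positivity
  have hr0 : 0 ≤ nrm (m x) t := Real.sqrt_nonneg _
  have h1 := key t ht.1
  have h2 := MM_low hb.hS0 hm δb yy t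
  have h3 : nrm (m x) t * nrm (m x) t = m x t t := Real.mul_self_sqrt (hm t)
  have h4 := (le_abs_self _).trans h1
  rw [← h3] at h2
  rcases hr0.eq_or_lt with h5 | h5
  · rw [← h5]
    positivity
  · have h6 : 99 / 100 * nrm (m x) t ≤ (102 / 100) * (b * (δ * (|c| * |s|) + 2 * |s| ^ 2)) := by
      have h7 : (99 / 100 * nrm (m x) t) * nrm (m x) t ≤
          ((102 / 100) * (b * (δ * (|c| * |s|) + 2 * |s| ^ 2))) * nrm (m x) t := by
        linarith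
      exact le_of_mul_le_mul_right h7 h5
    linarith

-- MB-4c
theorem ver_lower (H : NG h m S A x) {b δ : ℝ} (hb : BdN h m S A x b) {X Z : V} {U T : Y}
    {ca sa cb sb : ℝ} (F : Fr h m S δ b x y X Z U T ca sa cb sb) {t tu tv : Y}
    (h4 : IsVF m S δ x y (ca • X) ((sa / δ) • U) (cb • Z) ((sb / δ) • T) t)
    (h5 : IsVF m S δ x y (ca • X) ((sa / δ) • U) (ca • X) ((sa / δ) • U) tu)
    (h6 : IsVF m S δ x y (cb • Z) ((sb / δ) • T) (cb • Z) ((sb / δ) • T) tv) :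
    - (100 * b ^ 3 * Er δ (ca * cb) (sa * sb) (ca * sb) (sa * cb))
      ≤ δ ^ 2 * MM m S δ x y t t - δ ^ 2 * MM m S δ x y tu tv := by
  have hm : ∀ a, 0 ≤ m x a a := by
    intro a
    by_cases ha : a = 0
    · rw [ha, map_zero]
    · exact (H.hm.pos.self_of_nhds a ha).le
  have hb1 := hb.one
  have δ0 := F.δ0
  have δ1 := F.δ1
  have g0 := MM_low hb.hS0 hm F.δb F.yy t
  have g1 : 0 ≤ MM m S δ x y t t := by
    have := hm t
    linarith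
  obtain ⟨u1, -⟩ := diag_bound hb hm δ0 F.δb F.yy F.XX F.UU h5
  obtain ⟨-, v2⟩ := diag_bound hb hm δ0 F.δb F.yy F.ZZ F.TT h6
  have w1 := (le_abs_self _).trans (u1 tv h6.1)
  obtain ⟨a1, ha1⟩ : ∃ a1, a1 = |ca| := ⟨_, rfl⟩
  obtain ⟨a2, ha2⟩ : ∃ a2, a2 = |sa| := ⟨_, rfl⟩
  obtain ⟨b1, hb1'⟩ : ∃ b1, b1 = |cb| := ⟨_, rfl⟩
  obtain ⟨b2, hb2'⟩ : ∃ b2, b2 = |sb| := ⟨_, rfl⟩
  have pa1 : 0 ≤ a1 := ha1 ▸ abs_nonneg _
  have pa2 : 0 ≤ a2 := ha2 ▸ abs_nonneg _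
  have pb1 : 0 ≤ b1 := hb1' ▸ abs_nonneg _
  have pb2 : 0 ≤ b2 := hb2' ▸ abs_nonneg _
  rw [← ha1, ← ha2] at w1
  rw [← hb1', ← hb2'] at v2
  have hb0 : 0 ≤ b := by linarith
  have hQu : 0 ≤ b * (δ * (a1 * a2) + 2 * a2 ^ 2) := by positivity
  have w2 : MM m S δ x y tu tv ≤ 102 / 100 * (b * (δ * (a1 * a2) + 2 * a2 ^ 2)) *
      (104 / 100 * (b * (δ * (b1 * b2) + 2 * b2 ^ 2))) :=
    w1.trans (mul_le_mul_of_nonneg_left v2 (by positivity))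
  have w3 : δ ^ 2 * MM m S δ x y tu tv ≤ δ ^ 2 * (102 / 100 *
      (b * (δ * (a1 * a2) + 2 * a2 ^ 2)) * (104 / 100 * (b * (δ * (b1 * b2) + 2 * b2 ^ 2)))) :=
    mul_le_mul_of_nonneg_left w2 (sq_nonneg δ)
  have hEr : (a2 * b2) ^ 2 + a1 * b1 * (a2 * b2) + δ * (a2 * b2) * (a1 * b2 + a2 * b1) ≤
      Er δ (ca * cb) (sa * sb) (ca * sb) (sa * cb) := by
    unfold Er
    have k1 : (sa * sb) ^ 2 = (a2 * b2) ^ 2 := by
      rw [ha2, hb2', ← abs_mul, sq_abs]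
    have k2 : |ca * cb * (sa * sb)| = a1 * b1 * (a2 * b2) := by
      rw [ha1, ha2, hb1', hb2', abs_mul, abs_mul, abs_mul]
    have k3 : |sa * sb| = a2 * b2 := by rw [ha2, hb2', abs_mul]
    have k4 : |ca * sb| = a1 * b2 := by rw [ha1, hb2', abs_mul]
    have k5 : |sa * cb| = a2 * b1 := by rw [ha2, hb1', abs_mul]
    rw [k1, k2, k3, k4, k5]
    have k6 : 0 ≤ δ ^ 2 * (ca * cb) ^ 2 := by positivity
    have k7 : 0 ≤ δ ^ 3 * |ca * cb| * (a1 * b2 + a2 * b1) := by positivity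
    have k8 : 0 ≤ δ ^ 4 * ((ca * sb) ^ 2 + (sa * cb) ^ 2) := by positivity
    linarith
  have hd2 : δ ^ 2 ≤ 1 := pow_le_one₀ δ0.le δ1
  have hd4 : δ ^ 4 ≤ 1 := pow_le_one₀ δ0.le δ1
  have n1 : 0 ≤ a1 * b1 * (a2 * b2) := by positivity
  have n2 : 0 ≤ (a2 * b2) ^ 2 := by positivity
  have n3 : 0 ≤ δ * (a2 * b2) * (a1 * b2) := by positivity
  have n4 : 0 ≤ δ * (a2 * b2) * (a2 * b1) := by positivity
  have w4 : δ ^ 2 * ((δ * (a1 * a2) + 2 * a2 ^ 2) * (δ * (b1 * b2) + 2 * b2 ^ 2)) ≤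
      4 * ((a2 * b2) ^ 2 + a1 * b1 * (a2 * b2) + δ * (a2 * b2) * (a1 * b2 + a2 * b1)) := by
    have e : δ ^ 2 * ((δ * (a1 * a2) + 2 * a2 ^ 2) * (δ * (b1 * b2) + 2 * b2 ^ 2)) =
        δ ^ 4 * (a1 * b1 * (a2 * b2)) + δ ^ 2 * (2 * (δ * (a2 * b2) * (a1 * b2)) +
          2 * (δ * (a2 * b2) * (a2 * b1)) + 4 * (a2 * b2) ^ 2) := by ring
    rw [e]
    have e5 : δ ^ 4 * (a1 * b1 * (a2 * b2)) ≤ 1 * (a1 * b1 * (a2 * b2)) :=
      mul_le_mul_of_nonneg_right hd4 n1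
    have e6 : δ ^ 2 * (2 * (δ * (a2 * b2) * (a1 * b2)) +
          2 * (δ * (a2 * b2) * (a2 * b1)) + 4 * (a2 * b2) ^ 2) ≤
        1 * (2 * (δ * (a2 * b2) * (a1 * b2)) +
          2 * (δ * (a2 * b2) * (a2 * b1)) + 4 * (a2 * b2) ^ 2) :=
      mul_le_mul_of_nonneg_right hd2 (by linarith)
    linarith
  have hE0 : 0 ≤ (a2 * b2) ^ 2 + a1 * b1 * (a2 * b2) + δ * (a2 * b2) * (a1 * b2 + a2 * b1) := by
    positivity
  have hE1 : 0 ≤ Er δ (ca * cb) (sa * sb) (ca * sb) (sa * cb) := hE0.trans hEr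
  have w5 : δ ^ 2 * (102 / 100 *
      (b * (δ * (a1 * a2) + 2 * a2 ^ 2)) * (104 / 100 * (b * (δ * (b1 * b2) + 2 * b2 ^ 2)))) ≤
      100 * b ^ 3 * Er δ (ca * cb) (sa * sb) (ca * sb) (sa * cb) := by
    have hb2 : 0 ≤ b ^ 2 := sq_nonneg b
    have hb3 : b ^ 2 ≤ b ^ 3 := by
      calc b ^ 2 = b ^ 2 * 1 := by ring
        _ ≤ b ^ 2 * b := mul_le_mul_of_nonneg_left hb1 hb2
        _ = b ^ 3 := by ring
    have e7 : δ ^ 2 * (102 / 100 *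
      (b * (δ * (a1 * a2) + 2 * a2 ^ 2)) * (104 / 100 * (b * (δ * (b1 * b2) + 2 * b2 ^ 2)))) =
      (102 / 100 * (104 / 100)) * (b ^ 2 *
        (δ ^ 2 * ((δ * (a1 * a2) + 2 * a2 ^ 2) * (δ * (b1 * b2) + 2 * b2 ^ 2)))) := by ring
    rw [e7]
    have e8 : b ^ 2 * (δ ^ 2 * ((δ * (a1 * a2) + 2 * a2 ^ 2) * (δ * (b1 * b2) + 2 * b2 ^ 2))) ≤
        b ^ 2 * (4 * Er δ (ca * cb) (sa * sb) (ca * sb) (sa * cb)) :=
      mul_le_mul_of_nonneg_left (w4.trans (by linarith)) hb2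
    have e9 : b ^ 2 * (4 * Er δ (ca * cb) (sa * sb) (ca * sb) (sa * cb)) ≤
        b ^ 3 * (4 * Er δ (ca * cb) (sa * sb) (ca * sb) (sa * cb)) :=
      mul_le_mul_of_nonneg_right hb3 (by linarith)
    have e10 : 0 ≤ b ^ 3 * Er δ (ca * cb) (sa * sb) (ca * sb) (sa * cb) :=
      mul_nonneg (by positivity) hE1
    linarith
  have g2 : 0 ≤ δ ^ 2 * MM m S δ x y t t := mul_nonneg (sq_nonneg δ) g1
  linarith

end

end Pool.Agent.Helper32.MB
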